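import Pool.Agent.Run7.h46.U.Comb
import Pool.Agent.Run7.h46.Basic
import Pool.Agent.H579R3.SB

/-! Spaces of relational structures, finite sublanguages, Silver's theorem for elementary
equivalence. -/

namespace Run7.h46.U

open FirstOrder FirstOrder.Language Set Filter Function Run7.h46

variable {L : FirstOrder.Language.{0, 0}}

/-- the finite sublanguage -/
def sub (s : Finset (Σ n, L.Relations n)) : FirstOrder.Language.{0, 0} :=
  ⟨fun _ => Empty, fun n => {R : L.Relations n // (⟨n, R⟩ : Σ n, L.Relations n) ∈ s}⟩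

instance (s : Finset (Σ n, L.Relations n)) : (sub s).IsRelational :=
  fun _ => inferInstanceAs (IsEmpty Empty)

instance finite_sub (s : Finset (Σ n, L.Relations n)) : Finite (Σ n, (sub s).Relations n) := by
  refine Finite.of_injective (β := {R // R ∈ s})
    (fun R : (Σ n, (sub s).Relations n) => ⟨⟨R.1, R.2.1⟩, R.2.2⟩) ?_
  rintro ⟨n, R⟩ ⟨n', R'⟩ h
  have h1 := Subtype.ext_iff.1 h
  simp only [Sigma.mk.injEq] at h1
  obtain ⟨rfl, h2⟩ := h1
  have h3 : R = R' := Subtype.ext (eq_of_heq h2)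
  rw [h3]

instance finite_symb (s : Finset (Σ n, L.Relations n)) : Finite (sub s).Symbols := by
  have h1 : Finite (Σ n, (sub s).Functions n) := by
    have : IsEmpty (Σ n, (sub s).Functions n) := ⟨fun f => isEmptyElim f.2⟩
    infer_instance
  exact inferInstanceAs (Finite ((Σ n, (sub s).Functions n) ⊕ (Σ n, (sub s).Relations n)))

/-- the reduct -/
def red (s : Finset (Σ n, L.Relations n)) {M : Type} (A : Str L M) : Str (sub s) M :=
  fun R x => A ⟨R.1, R.2.1⟩ x

/-- codes of structures -/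
abbrev Pt (L : FirstOrder.Language.{0, 0}) : Type := (Σ n, L.Relations n × (Fin n → ℕ)) → Bool

/-- the structure with the given code -/
def dec (x : Pt L) : Str L ℕ := fun R v => x ⟨R.1, R.2, v⟩ = true

open Classical in
/-- the code -/
noncomputable def enc (A : Str L ℕ) : Pt L := fun p => decide (A ⟨p.1, p.2.1⟩ p.2.2)

@[simp] theorem dec_enc (A : Str L ℕ) : dec (enc A) = A := by
  funext R v
  simp [dec, enc]

/-- atomic statements on `r`-tuples -/
abbrev At (L : FirstOrder.Language.{0, 0}) (r : ℕ) : Type :=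
  (Fin r × Fin r) ⊕ (Σ R : (Σ n, L.Relations n), (Fin R.1 → Fin r))

/-- the quantifier-free type of a tuple -/
def ty {M : Type} (A : Str L M) {r : ℕ} (x : Fin r → M) : Set (At L r) :=
  {a | Sum.elim (fun p => x p.1 = x p.2)
    (fun q : (Σ R : (Σ n, L.Relations n), (Fin R.1 → Fin r)) => A q.1 (x ∘ q.2)) a}

theorem mem_ty_inl {M : Type} {A : Str L M} {r : ℕ} {x : Fin r → M} {p : Fin r × Fin r} :
    (Sum.inl p : At L r) ∈ ty A x ↔ x p.1 = x p.2 := Iff.rfl

theorem mem_ty_inr {M : Type} {A : Str L M} {r : ℕ} {x : Fin r → M}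
    {q : (Σ R : (Σ n, L.Relations n), (Fin R.1 → Fin r))} :
    (Sum.inr q : At L r) ∈ ty A x ↔ A q.1 (x ∘ q.2) := Iff.rfl

theorem ty_pull {M N : Type} (A : Str L M) {f : N → M} (hf : Injective f) {r : ℕ}
    (x : Fin r → N) : ty (A.pull f) x = ty A (f ∘ x) := by
  ext (p | q)
  · rw [mem_ty_inl, mem_ty_inl]
    exact (hf.eq_iff).symm
  · rfl

/-- the realised conditions -/
def CR {M : Type} (A : Str L M) (r : ℕ) : Set (Cond (At L r)) :=
  {D | ∃ x : Fin r → M, Holds D (ty A x)}

theorem isFO_cr [L.IsRelational] {r : ℕ} (D : Cond (At L r)) :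
    IsFO (L := L) Empty (fun _ A _ => D ∈ CR A r) := by
  refine IsFO.ex (W := Fin r) (Q := fun _ A _ w => Holds D (ty A w)) ?_
  have h : ∀ l : {l // l ∈ D}, IsFO (L := L) (Empty ⊕ Fin r)
      (fun _ A u => (l.1.1 ∈ ty A (u ∘ Sum.inr) ↔ l.1.2 = true)) := by
    rintro ⟨⟨a, b⟩, hl⟩
    refine IsFO.iff ?_ (IsFO.const _)
    rcases a with p | q
    · exact IsFO.eq (Sum.inr p.1) (Sum.inr p.2)
    · exact IsFO.rel q.1 (fun i => Sum.inr (q.2 i))
  refine (IsFO.finall h).congr fun N A u => ?_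
  exact ⟨fun h l hl => h ⟨l, hl⟩, fun h l => h l.1 l.2⟩

/-- elementary equivalence -/
def EE [L.IsRelational] (A B : Str L ℕ) : Prop :=
  @ElementarilyEquivalent L ℕ ℕ (toS A) (toS B)

theorem EE.cr [L.IsRelational] {A B : Str L ℕ} (h : EE A B) (r : ℕ) : CR A r = CR B r := by
  ext D
  exact iff_of_equiv (isFO_cr D) A B h

theorem ee_iff [L.IsRelational] {A B : Str L ℕ} : EE A B ↔ ∀ φ : L.Sentence,
    (@Sentence.Realize L ℕ (toS A) φ ↔ @Sentence.Realize L ℕ (toS B) φ) :=
  @elementarilyEquivalent_iff L ℕ ℕ (toS A) (toS B)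

theorem EE.symm [L.IsRelational] {A B : Str L ℕ} (h : EE A B) : EE B A :=
  ee_iff.2 fun φ => (ee_iff.1 h φ).symm

theorem EE.trans [L.IsRelational] {A B C : Str L ℕ} (h : EE A B) (h' : EE B C) : EE A C :=
  ee_iff.2 fun φ => (ee_iff.1 h φ).trans (ee_iff.1 h' φ)

/-- isomorphism -/
def RIso (A B : Str L ℕ) : Prop :=
  ∃ e : Equiv.Perm ℕ, ∀ (R : Σ n, L.Relations n) (v : Fin R.1 → ℕ), A R v ↔ B R (e ∘ v)

theorem RIso.ee [L.IsRelational] {A B : Str L ℕ} (h : RIso A B) : EE A B := by
  obtain ⟨e, he⟩ := h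
  let E : @FirstOrder.Language.Equiv L ℕ ℕ (toS A) (toS B) :=
    @FirstOrder.Language.Equiv.mk L ℕ ℕ (toS A) (toS B) e (fun f _ => isEmptyElim f)
      (fun {n} R v => (he ⟨n, R⟩ v).symm)
  exact ee_iff.2 fun φ => @StrongHomClass.realize_sentence L ℕ ℕ (toS A) (toS B) _ _ _ E φ

/-- satisfaction is measurable -/
theorem meas_realize [L.IsRelational] {Y : Type} [MeasurableSpace Y] {f : Y → Str L ℕ}
    (hf : ∀ (R : Σ n, L.Relations n) (a : Fin R.1 → ℕ), MeasurableSet {y | f y R a})
    {β : Type} {n : ℕ} (φ : L.BoundedFormula β n) (c : β → ℕ) (d : Fin n → ℕ) :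
    MeasurableSet {y | @BoundedFormula.Realize L ℕ (toS (f y)) _ _ φ c d} := by
  have ht : ∀ {n : ℕ} (c : β → ℕ) (d : Fin n → ℕ) (t : L.Term (β ⊕ Fin n)), ∃ a : ℕ, ∀ y : Y,
      @Term.realize L ℕ (toS (f y)) _ (Sum.elim c d) t = a := by
    intro n c d t
    cases t with
    | var i => exact ⟨Sum.elim c d i, fun y => rfl⟩
    | func g _ => exact isEmptyElim g
  induction φ with
  | falsum => exact MeasurableSet.const False
  | @equal n t1 t2 =>
    obtain ⟨a, ha⟩ := ht c d t1
    obtain ⟨b, hb⟩ := ht c d t2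
    have : {y | @BoundedFormula.Realize L ℕ (toS (f y)) _ _ (BoundedFormula.equal t1 t2) c d} =
        {_y | a = b} := by
      ext y
      show @Term.realize L ℕ (toS (f y)) _ (Sum.elim c d) t1 =
        @Term.realize L ℕ (toS (f y)) _ (Sum.elim c d) t2 ↔ _
      rw [ha, hb]
      exact Iff.rfl
    rw [this]
    exact MeasurableSet.const (a = b)
  | @rel n l R ts =>
    choose a ha using fun i => ht c d (ts i)
    have : {y | @BoundedFormula.Realize L ℕ (toS (f y)) _ _ (BoundedFormula.rel R ts) c d} =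
        {y | f y ⟨l, R⟩ a} := by
      ext y
      show @Structure.RelMap L ℕ (toS (f y)) l R
        (fun i => @Term.realize L ℕ (toS (f y)) _ (Sum.elim c d) (ts i)) ↔ _
      have e : (fun i => @Term.realize L ℕ (toS (f y)) _ (Sum.elim c d) (ts i)) = a :=
        funext fun i => ha i y
      rw [e]
      exact Iff.rfl
    rw [this]
    exact hf ⟨l, R⟩ a
  | @imp n f1 f2 h1 h2 =>
    have : {y | @BoundedFormula.Realize L ℕ (toS (f y)) _ _ (f1.imp f2) c d} =
        {y | @BoundedFormula.Realize L ℕ (toS (f y)) _ _ f1 c d}ᶜ ∪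
          {y | @BoundedFormula.Realize L ℕ (toS (f y)) _ _ f2 c d} := by
      ext y
      show (@BoundedFormula.Realize L ℕ (toS (f y)) _ _ f1 c d →
        @BoundedFormula.Realize L ℕ (toS (f y)) _ _ f2 c d) ↔ _
      rw [imp_iff_not_or]
      exact Iff.rfl
    rw [this]
    exact (h1 d).compl.union (h2 d)
  | @all n g h =>
    have : {y | @BoundedFormula.Realize L ℕ (toS (f y)) _ _ g.all c d} =
        ⋂ a : ℕ, {y | @BoundedFormula.Realize L ℕ (toS (f y)) _ _ g c (Fin.snoc d a)} := by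
      ext y
      rw [mem_iInter]
      exact Iff.rfl
    rw [this]
    exact MeasurableSet.iInter fun a => h (Fin.snoc d a)

theorem countable_sentence [L.IsRelational] [Countable (Σ n, L.Relations n)] :
    Countable L.Sentence := by
  have h1 : Countable (Σ n, L.Functions n) := by
    have : ∀ n, IsEmpty (L.Functions n) := fun n => inferInstance
    infer_instance
  have h2 : Countable L.Symbols :=
    inferInstanceAs (Countable ((Σ n, L.Functions n) ⊕ Σ n, L.Relations n))
  have h3 : Cardinal.mk (Σ n, L.BoundedFormula Empty n) ≤ Cardinal.aleph0 := by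
    refine BoundedFormula.card_le.trans ?_
    refine max_le le_rfl ?_
    rw [Cardinal.mk_eq_zero Empty]
    simp only [zero_add, Cardinal.lift_id]
    exact Cardinal.mk_le_aleph0
  have h4 : Countable (Σ n, L.BoundedFormula Empty n) := Cardinal.mk_le_aleph0_iff.1 h3
  exact (sigma_mk_injective (β := fun n => L.BoundedFormula Empty n) (i := 0)).countable

theorem countable_idx [Countable (Σ n, L.Relations n)] :
    Countable (Σ n, L.Relations n × (Fin n → ℕ)) := by
  have : ∀ n, Countable (L.Relations n) := fun n =>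
    (sigma_mk_injective (β := L.Relations) (i := n)).countable
  infer_instance

/-- Silver's theorem for elementary equivalence. -/
theorem silver_ee [L.IsRelational] [Countable (Σ n, L.Relations n)] (𝒞 : Set (Str L ℕ))
    (h𝒞 : MeasurableSet {x : Pt L | dec x ∈ 𝒞}) :
    (∃ S : Set (Pt L), S.Countable ∧ (∀ x ∈ S, dec x ∈ 𝒞) ∧
      ∀ A ∈ 𝒞, ∃ y ∈ S, EE A (dec y)) ∨
    ∃ f : (ℕ → Bool) → Pt L, Continuous f ∧ (∀ b, dec (f b) ∈ 𝒞) ∧
      ∀ b b', b ≠ b' → ¬ EE (dec (f b)) (dec (f b')) := by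
  classical
  have hc : Countable (Σ n, L.Relations n × (Fin n → ℕ)) := countable_idx
  have hsc : Countable L.Sentence := countable_sentence
  have hP : PolishSpace (Pt L) := by
    have h1 : SecondCountableTopology (Pt L) := inferInstance
    have h2 : TopologicalSpace.IsCompletelyMetrizableSpace (Pt L) := inferInstance
    exact {}
  have hdec : ∀ (R : Σ n, L.Relations n) (a : Fin R.1 → ℕ),
      MeasurableSet {x : Pt L | dec x R a} := fun R a => by
    have h1 : IsClopen ((fun x : Pt L => x ⟨R.1, R.2, a⟩) ⁻¹' {true}) :=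
      (isClopen_discrete ({true} : Set Bool)).preimage
        (continuous_apply (⟨R.1, R.2, a⟩ : Σ n, L.Relations n × (Fin n → ℕ)))
    exact h1.isOpen.measurableSet
  let E : Pt L → Pt L → Prop := fun x y => EE (dec x) (dec y)
  have hE : Equivalence E := ⟨fun x => ee_iff.2 fun φ => Iff.rfl, fun h => h.symm,
    fun h h' => h.trans h'⟩
  have hm : MeasurableSet {q : Pt L × Pt L | E q.1 q.2} := by
    have h1 : {q : Pt L × Pt L | E q.1 q.2} = ⋂ φ : L.Sentence,
        ({q : Pt L × Pt L | @Sentence.Realize L ℕ (toS (dec q.1)) φ ↔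
          @Sentence.Realize L ℕ (toS (dec q.2)) φ}) := by
      ext q
      rw [mem_iInter]
      exact ee_iff
    rw [h1]
    refine MeasurableSet.iInter fun φ => ?_
    have h2 : MeasurableSet {q : Pt L × Pt L | @Sentence.Realize L ℕ (toS (dec q.1)) φ} :=
      meas_realize (f := fun q : Pt L × Pt L => dec q.1)
        (fun R a => measurable_fst (hdec R a)) φ _ _
    have h3 : MeasurableSet {q : Pt L × Pt L | @Sentence.Realize L ℕ (toS (dec q.2)) φ} :=
      meas_realize (f := fun q : Pt L × Pt L => dec q.2)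
        (fun R a => measurable_snd (hdec R a)) φ _ _
    have h4 : {q : Pt L × Pt L | @Sentence.Realize L ℕ (toS (dec q.1)) φ ↔
        @Sentence.Realize L ℕ (toS (dec q.2)) φ} =
        ({q : Pt L × Pt L | @Sentence.Realize L ℕ (toS (dec q.1)) φ} ∩
          {q : Pt L × Pt L | @Sentence.Realize L ℕ (toS (dec q.2)) φ}) ∪
        ({q : Pt L × Pt L | @Sentence.Realize L ℕ (toS (dec q.1)) φ}ᶜ ∩
          {q : Pt L × Pt L | @Sentence.Realize L ℕ (toS (dec q.2)) φ}ᶜ) := by
      ext q
      simp only [mem_setOf_eq, mem_union, mem_inter_iff, mem_compl_iff]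
      tauto
    rw [h4]
    exact (h2.inter h3).union (h2.compl.inter h3.compl)
  rcases Pool.Agent.H579R3.SV.silver hE hm h𝒞.analyticSet with ⟨S, h1, h2, h3⟩ | ⟨f, h1, h2, h3⟩
  · refine Or.inl ⟨S, h2, fun x hx => h1 hx, fun A hA => ?_⟩
    have h4 : enc A ∈ {x : Pt L | dec x ∈ 𝒞} := by
      rw [mem_setOf_eq, dec_enc]
      exact hA
    obtain ⟨y, hy, hxy⟩ := h3 _ h4
    have h5 : EE (dec (enc A)) (dec y) := hxy
    rw [dec_enc] at h5
    exact ⟨y, hy, h5⟩
  · exact Or.inr ⟨f, h1, h2, h3⟩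

end Run7.h46.U
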