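import Pool.Agent.H330.Ramsey

/-! A structure with infinitely many types of tuples has uncountably many substructures:
the combinatorial part. -/

namespace Run7.h46.U

open Set

/-- a condition: finitely many literals -/
abbrev Cond (𝔸 : Type) : Type := Finset (𝔸 × Bool)

/-- the set `τ` of atoms satisfies the condition -/
def Holds {𝔸 : Type} (D : Cond 𝔸) (τ : Set 𝔸) : Prop := ∀ l ∈ D, (l.1 ∈ τ ↔ l.2 = true)

variable {𝔸 P : Type} {r : ℕ}

/-- the conditions realised with the indices from `X` -/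
def Real (σ : (Fin r → ℕ) → P → Set 𝔸) (X : Set ℕ) : Set (Cond 𝔸) :=
  {D | ∃ j p, (∀ c, j c ∈ X) ∧ Holds D (σ j p)}

/-- the types realised with the indices from `X` -/
def Tys (σ : (Fin r → ℕ) → P → Set 𝔸) (X : Set ℕ) : Set (Set 𝔸) :=
  {τ | ∃ j p, (∀ c, j c ∈ X) ∧ σ j p = τ}

theorem Real.mono {σ : (Fin r → ℕ) → P → Set 𝔸} {X Y : Set ℕ} (h : X ⊆ Y) :
    Real σ X ⊆ Real σ Y := by
  rintro D ⟨j, p, hj, hD⟩
  exact ⟨j, p, fun c => h (hj c), hD⟩

/-- Finitely many different sets of atoms are separated by disjoint conditions. -/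
theorem exists_disjoint {N : ℕ} (τ : Fin N → Set 𝔸) (hτ : Function.Injective τ) :
    ∃ D : Fin N → Cond 𝔸, (∀ i, Holds (D i) (τ i)) ∧
      ∀ i i', i ≠ i' → ∀ t, Holds (D i) t → ¬ Holds (D i') t := by
  classical
  have h1 : ∀ i i', ∃ F : Finset 𝔸, i ≠ i' → ∃ a ∈ F, ¬ (a ∈ τ i ↔ a ∈ τ i') := by
    intro i i'
    by_cases hii : i = i'
    · exact ⟨∅, fun h => absurd hii h⟩
    · have h2 : τ i ≠ τ i' := fun h => hii (hτ h)
      have h3 : ∃ a, ¬ (a ∈ τ i ↔ a ∈ τ i') := by
        by_contra hcon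
        push Not at hcon
        exact h2 (Set.ext hcon)
      obtain ⟨a, ha⟩ := h3
      exact ⟨{a}, fun _ => ⟨a, Finset.mem_singleton_self a, ha⟩⟩
  choose F hF using h1
  let A0 : Finset 𝔸 := Finset.univ.biUnion fun i => Finset.univ.biUnion fun i' => F i i'
  have hA0 : ∀ i i', i ≠ i' → ∃ a ∈ A0, ¬ (a ∈ τ i ↔ a ∈ τ i') := by
    intro i i' hii
    obtain ⟨a, ha, ha'⟩ := hF i i' hii
    exact ⟨a, Finset.mem_biUnion.2 ⟨i, Finset.mem_univ _, Finset.mem_biUnion.2
      ⟨i', Finset.mem_univ _, ha⟩⟩, ha'⟩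
  have hD : ∀ i t, Holds (A0.image (fun a => (a, decide (a ∈ τ i)))) t ↔
      ∀ a ∈ A0, (a ∈ t ↔ a ∈ τ i) := by
    intro i t
    constructor
    · intro h a ha
      have := h (a, decide (a ∈ τ i)) (Finset.mem_image_of_mem _ ha)
      simpa using this
    · intro h x hx
      obtain ⟨a, ha, rfl⟩ := Finset.mem_image.1 hx
      simpa using h a ha
  refine ⟨fun i => A0.image (fun a => (a, decide (a ∈ τ i))), ?_, ?_⟩
  · intro i
    rw [hD]
    exact fun a _ => Iff.rfl
  · intro i i' hii t h1 h2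
    rw [hD] at h1 h2
    obtain ⟨a, ha, ha'⟩ := hA0 i i' hii
    exact ha' ((h1 a ha).symm.trans (h2 a ha))

/-- the increasing enumeration -/
noncomputable def enu (r : ℕ) (F : Finset ℕ) (k : Fin r) : ℕ :=
  open Classical in if h : F.card = r then F.orderEmbOfFin h k else 0

theorem exists_enu {F : Finset ℕ} (hF : F.card = r) {a : ℕ} (ha : a ∈ F) :
    ∃ k, enu r F k = a := by
  have : a ∈ Set.range (F.orderEmbOfFin hF) := by
    rw [Finset.range_orderEmbOfFin]
    exact ha
  obtain ⟨k, hk⟩ := this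
  refine ⟨k, ?_⟩
  unfold enu
  rw [dif_pos hF]
  exact hk

/-- The self-similar case is impossible. -/
theorem no_const [Finite P] (σ : (Fin r → ℕ) → P → Set 𝔸)
    (s : Finset ℕ) (J : Set ℕ) (hJ : J.Infinite) (hinf : (Tys σ (s ∪ J)).Infinite)
    (V : Set (Cond 𝔸)) (hV : ∀ J' ⊆ J, J'.Infinite → Real σ (s ∪ J') = V) : False := by
  classical
  -- patterns
  let Q : Type := (Fin r → {x // x ∈ s} ⊕ Fin r) × P
  have hQ : Finite Q := inferInstance
  let ev : Q → (Fin r → ℕ) → Set 𝔸 := fun q y =>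
    σ (fun c => Sum.elim (fun x : {x // x ∈ s} => (x : ℕ)) y (q.1 c)) q.2
  let N := Nat.card Q + 1
  -- different types
  obtain ⟨τ, hτ⟩ : ∃ τ : Fin N → Set 𝔸, Function.Injective τ ∧ ∀ i, τ i ∈ Tys σ (s ∪ J) := by
    let e := hinf.natEmbedding
    exact ⟨fun i => e i.1, fun a b h => Fin.ext (e.injective (Subtype.ext h)),
      fun i => (e i.1).2⟩
  obtain ⟨D, hD1, hD2⟩ := exists_disjoint τ hτ.1
  have hJi : Infinite J := hJ.to_subtype
  obtain ⟨H, col, hH, hcol⟩ := Pool.Agent.H330.infinite_ramsey (A := J)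
    (C := Fin N → Q → Prop) r
    (fun F i q => Holds (D i) (ev q (enu r (F.map (Function.Embedding.subtype _)))))
  let J' : Set ℕ := Subtype.val '' H
  have hJ' : J' ⊆ J := by
    rintro _ ⟨x, _, rfl⟩
    exact x.2
  have hJ'i : J'.Infinite := hH.image Subtype.val_injective.injOn
  have hcol' : ∀ F : Finset ℕ, F.card = r → (F : Set ℕ) ⊆ J' → ∀ i q,
      Holds (D i) (ev q (enu r F)) ↔ col i q := by
    intro F hF hFJ i q
    have h1 : ∀ x ∈ F, x ∈ J := fun x hx => hJ' (hFJ hx)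
    let F' : Finset J := F.attach.map ⟨fun x => ⟨x.1, h1 x.1 x.2⟩, fun a b h => by
      apply Subtype.ext
      exact congrArg (fun z : J => (z : ℕ)) h⟩
    have h2 : F'.map (Function.Embedding.subtype _) = F := by
      ext x
      simp [F']
      intro hx
      exact h1 x hx
    have h3 : F'.card = r := by
      rw [← hF]
      simp [F']
    have h4 := hcol F' h3 (by
      intro x hx
      have hx' : (x : ℕ) ∈ F := by
        rw [← h2]
        exact Finset.mem_map.2 ⟨x, hx, rfl⟩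
      obtain ⟨y, hy, hyx⟩ := hFJ hx'
      have : y = x := Subtype.ext hyx
      exact this ▸ hy)
    have h5 := congrFun (congrFun h4 i) q
    simp only [h2] at h5
    exact iff_of_eq h5
  -- every condition is realised by a pattern
  have hq : ∀ i, ∃ q, col i q := by
    intro i
    have h1 : D i ∈ Real σ (s ∪ J) := by
      obtain ⟨j, p, hj, hjp⟩ := hτ.2 i
      exact ⟨j, p, hj, hjp ▸ hD1 i⟩
    rw [hV J Subset.rfl hJ, ← hV J' hJ' hJ'i] at h1
    obtain ⟨j, p, hj, hjD⟩ := h1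
    -- the set of the new indices
    have hJ't : Infinite J' := hJ'i.to_subtype
    let G : Finset J' := (Finset.univ.image j).subtype (fun a => a ∈ J')
    have hGc : G.card ≤ r := by
      rw [Finset.card_subtype]
      refine (Finset.card_filter_le _ _).trans (Finset.card_image_le.trans ?_)
      simp
    obtain ⟨F, hGF, hFc⟩ := Infinite.exists_superset_card_eq G r hGc
    let F' : Finset ℕ := F.map (Function.Embedding.subtype _)
    have hF'c : F'.card = r := by
      rw [← hFc]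
      exact Finset.card_map _
    have hF'J : (F' : Set ℕ) ⊆ J' := by
      intro a ha
      obtain ⟨x, _, rfl⟩ := Finset.mem_map.1 (Finset.mem_coe.1 ha)
      exact x.2
    have hjF : ∀ c, j c ∉ s → j c ∈ F' := by
      intro c hc
      have h2 : j c ∈ J' := (hj c).resolve_left hc
      refine Finset.mem_map.2 ⟨⟨j c, h2⟩, hGF ?_, rfl⟩
      rw [Finset.mem_subtype]
      exact Finset.mem_image_of_mem _ (Finset.mem_univ c)
    have h3 : ∀ c, ∃ a : {x // x ∈ s} ⊕ Fin r,
        Sum.elim (fun x : {x // x ∈ s} => (x : ℕ)) (enu r F') a = j c := by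
      intro c
      by_cases hc : j c ∈ s
      · exact ⟨Sum.inl ⟨j c, hc⟩, rfl⟩
      · obtain ⟨k, hk⟩ := exists_enu hF'c (hjF c hc)
        exact ⟨Sum.inr k, hk⟩
    choose a ha using h3
    refine ⟨(a, p), (hcol' F' hF'c hF'J i (a, p)).1 ?_⟩
    have h4 : ev (a, p) (enu r F') = σ j p := by
      show σ (fun c => Sum.elim (fun x : {x // x ∈ s} => (x : ℕ)) (enu r F') (a c)) p = σ j p
      rw [funext ha]
    rw [h4]
    exact hjD
  choose q hq using hq
  obtain ⟨i, i', hii, hqq⟩ : ∃ i i', i ≠ i' ∧ q i = q i' := by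
    by_contra hcon
    push Not at hcon
    have hinj : Function.Injective q := fun a b h => by
      by_contra hab
      exact hcon a b hab h
    have := Nat.card_le_card_of_injective q hinj
    simp only [Nat.card_eq_fintype_card, Fintype.card_fin] at this
    simp only [N, Nat.card_eq_fintype_card] at this
    omega
  obtain ⟨F, hFJ, hFc⟩ : ∃ F : Finset ℕ, (F : Set ℕ) ⊆ J' ∧ F.card = r :=
    hJ'i.exists_subset_card_eq r
  have h1 := (hcol' F hFc hFJ i (q i)).2 (hq i)
  have h2 := (hcol' F hFc hFJ i' (q i')).2 (hq i')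
  rw [← hqq] at h2
  exact hD2 i i' hii _ h1 h2

/-- one step of the construction -/
theorem step [Finite P] (σ : (Fin r → ℕ) → P → Set 𝔸) (hinf : ∀ X : Set ℕ, X.Infinite →
    (Tys σ X).Infinite) (s : Finset ℕ) (J : Set ℕ) (hJ : J.Infinite) (V : Set (Cond 𝔸)) :
    ∃ (s' : Finset ℕ) (J' : Set ℕ), s ⊂ s' ∧ (s' : Set ℕ) ⊆ s ∪ J ∧ J' ⊆ J ∧ J'.Infinite ∧
      ∀ X : Set ℕ, (s' : Set ℕ) ⊆ X → X ⊆ s' ∪ J' → Real σ X ≠ V := by
  classical
  -- it suffices to find a possibly equal set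
  suffices h : ∃ (s' : Finset ℕ) (J' : Set ℕ), s ⊆ s' ∧ (s' : Set ℕ) ⊆ s ∪ J ∧ J' ⊆ J ∧
      J'.Infinite ∧ ∀ X : Set ℕ, (s' : Set ℕ) ⊆ X → X ⊆ s' ∪ J' → Real σ X ≠ V by
    obtain ⟨s', J', h1, h2, h3, h4, h5⟩ := h
    obtain ⟨a, ha, has⟩ := (h4.diff (Finset.finite_toSet s')).nonempty
    refine ⟨insert a s', J', ?_, ?_, h3, h4, ?_⟩
    · refine Finset.ssubset_of_subset_of_ssubset h1 (Finset.ssubset_insert ?_)
      exact fun h => has (Finset.mem_coe.2 h)
    · intro x hx
      rw [Finset.coe_insert] at hx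
      rcases hx with rfl | hx
      · exact Or.inr (h3 ha)
      · exact h2 hx
    · intro X hX hX'
      refine h5 X (fun x hx => hX ?_) (fun x hx => ?_)
      · rw [Finset.coe_insert]
        exact Or.inr hx
      · rcases hX' hx with h | h
        · rw [Finset.coe_insert] at h
          rcases h with rfl | h
          · exact Or.inr ha
          · exact Or.inl h
        · exact Or.inr h
  by_cases ha : ∃ J' ⊆ J, J'.Infinite ∧ ∃ D ∈ V, D ∉ Real σ (s ∪ J')
  · obtain ⟨J', h1, h2, D, hD, hD'⟩ := ha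
    refine ⟨s, J', Finset.Subset.refl s, fun x hx => Or.inl hx, h1, h2, ?_⟩
    intro X _ hX h
    rw [← h] at hD
    exact hD' (Real.mono hX hD)
  · by_cases hb : ∃ D ∈ Real σ (s ∪ J), D ∉ V
    · obtain ⟨D, ⟨j, p, hj, hD⟩, hDV⟩ := hb
      refine ⟨s ∪ Finset.univ.image j, J, Finset.subset_union_left, ?_, Subset.rfl, hJ, ?_⟩
      · intro x hx
        rw [Finset.coe_union] at hx
        rcases hx with h | h
        · exact Or.inl h
        · obtain ⟨c, _, rfl⟩ := Finset.mem_image.1 (Finset.mem_coe.1 h)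
          exact hj c
      · intro X hX _ h
        rw [← h] at hDV
        refine hDV ⟨j, p, fun c => hX ?_, hD⟩
        rw [Finset.coe_union]
        exact Or.inr (Finset.mem_coe.2 (Finset.mem_image_of_mem _ (Finset.mem_univ c)))
    · exfalso
      push Not at ha hb
      refine no_const σ s J hJ (hinf _ ?_) V fun J' h1 h2 => ?_
      · exact hJ.mono fun x hx => Or.inr hx
      · apply Subset.antisymm
        · exact (Real.mono (union_subset_union_right _ h1)).trans hb
        · exact fun D hD => ha J' h1 h2 D hD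

/-- There are uncountably many sets of realised conditions. -/
theorem uncountable_real [Finite P] (σ : (Fin r → ℕ) → P → Set 𝔸) (hinf : ∀ X : Set ℕ,
    X.Infinite → (Tys σ X).Infinite) (U : ℕ → Set (Cond 𝔸)) :
    ∃ X : Set ℕ, X.Infinite ∧ ∀ i, Real σ X ≠ U i := by
  classical
  let St : Type := {p : Finset ℕ × Set ℕ // p.2.Infinite}
  have hs : ∀ (i : ℕ) (p : St), ∃ p' : St, p.1.1 ⊂ p'.1.1 ∧
      (p'.1.1 : Set ℕ) ⊆ p.1.1 ∪ p.1.2 ∧ p'.1.2 ⊆ p.1.2 ∧
      ∀ X : Set ℕ, (p'.1.1 : Set ℕ) ⊆ X → X ⊆ p'.1.1 ∪ p'.1.2 → Real σ X ≠ U i := by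
    intro i p
    obtain ⟨s', J', h1, h2, h3, h4, h5⟩ := step σ hinf p.1.1 p.1.2 p.2 (U i)
    exact ⟨⟨(s', J'), h4⟩, h1, h2, h3, h5⟩
  choose nx h1 h2 h3 h4 using hs
  let q : ℕ → St := fun n => Nat.rec ⟨(∅, Set.univ), Set.infinite_univ⟩ (fun i p => nx i p) n
  have hq : ∀ n, q (n + 1) = nx n (q n) := fun n => rfl
  have hmono : ∀ n, ((q n).1.1 : Set ℕ) ⊆ (q (n + 1)).1.1 := fun n => by
    rw [hq]
    exact Finset.coe_subset.2 (h1 n (q n)).subset
  have hmono' : Monotone fun n => ((q n).1.1 : Set ℕ) := monotone_nat_of_le_succ hmono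
  have hJ : Antitone fun n => ((q n).1.2 : Set ℕ) := antitone_nat_of_succ_le fun n => by
    rw [hq]
    exact h3 n (q n)
  have hcard : ∀ n, n ≤ (q n).1.1.card := by
    intro n
    induction n with
    | zero => exact Nat.zero_le _
    | succ n ih =>
      rw [hq]
      exact Nat.lt_of_le_of_lt ih (Finset.card_lt_card (h1 n (q n)))
  have hsub : ∀ n m, n ≤ m → ((q m).1.1 : Set ℕ) ⊆ (q n).1.1 ∪ (q n).1.2 := by
    intro n m hnm
    induction m, hnm using Nat.le_induction with
    | base => exact fun x hx => Or.inl hx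
    | succ m hm ih =>
      rw [hq]
      intro x hx
      rcases h2 m (q m) hx with h | h
      · exact ih h
      · exact Or.inr (hJ hm h)
  refine ⟨⋃ n, ((q n).1.1 : Set ℕ), ?_, fun i => ?_⟩
  · intro hfin
    have h5 : ∀ n, n ≤ hfin.toFinset.card := fun n => (hcard n).trans
      (Finset.card_le_card fun x hx => hfin.mem_toFinset.2
        (mem_iUnion.2 ⟨n, Finset.mem_coe.2 hx⟩))
    have := h5 (hfin.toFinset.card + 1)
    omega
  · refine h4 i (q i) _ ?_ ?_
    · rw [← hq]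
      exact fun x hx => mem_iUnion.2 ⟨i + 1, hx⟩
    · rw [← hq]
      intro x hx
      obtain ⟨m, hm⟩ := mem_iUnion.1 hx
      rcases le_total (i + 1) m with h | h
      · exact hsub _ _ h hm
      · exact Or.inl (hmono' h hm)

end Run7.h46.U
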