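import Pool.Agent.Run7.h46.U.Main

/-! Expansions of structures, closed hereditary classes. -/

namespace Run7.h46.U

open FirstOrder FirstOrder.Language Set Filter Function Run7.h46 Run7.h46.S Topology

variable {L : FirstOrder.Language.{0, 0}}

/-- a finite injective map extends to an injection -/
theorem exists_extend (n : ℕ) (f : ℕ → ℕ) (hf : InjOn f (Finset.range n : Set ℕ)) :
    ∃ g : ℕ → ℕ, Injective g ∧ ∀ k < n, g k = f k := by
  let M : ℕ := ∑ k ∈ Finset.range n, f k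
  have hM : ∀ k < n, f k ≤ M := fun k hk =>
    Finset.single_le_sum (f := f) (fun _ _ => Nat.zero_le _) (Finset.mem_range.2 hk)
  refine ⟨fun k => if k < n then f k else M + 1 + k, ?_, fun k hk => if_pos hk⟩
  intro a b hab
  simp only at hab
  split_ifs at hab with ha hb hb
  · exact hf (by simpa using ha) (by simpa using hb) hab
  · have := hM a ha
    omega
  · have := hM b hb
    omega
  · omega

/-- In a closed hereditary class every structure whose finite parts embed into the reduct of a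
member is the reduct of a member. -/
theorem exists_expand {𝒞 : Set (Str L ℕ)} (hH : Hered 𝒞)
    (hcl : IsClosed {x : Pt L | dec x ∈ 𝒞}) {A : Str L ℕ} (hA : A ∈ 𝒞)
    (s : Finset (Σ n, L.Relations n)) (N : Str (sub s) ℕ) (h : FinEmb N (red s A)) :
    ∃ B ∈ 𝒞, red s B = N := by
  classical
  have h0 : ∀ n : ℕ, ∃ g : ℕ → ℕ, Injective g ∧
      ∀ (R : Σ n, (sub s).Relations n) (x : Fin R.1 → ℕ), (∀ i, x i < n) →
        (N R x ↔ red s A R (g ∘ x)) := by
    intro n
    obtain ⟨f, hf1, hf2⟩ := h (Finset.range n)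
    obtain ⟨g, hg1, hg2⟩ := exists_extend n f hf1
    refine ⟨g, hg1, fun R x hx => ?_⟩
    have h1 : g ∘ x = f ∘ x := funext fun i => hg2 _ (hx i)
    rw [h1]
    exact hf2 R x fun i => Finset.mem_range.2 (hx i)
  choose g hg1 hg2 using h0
  let U : Ultrafilter ℕ := hyperfilter ℕ
  let b : ℕ → Pt L := fun n => enc (A.pull (g n))
  let x : Pt L := fun p => decide (∀ᶠ n in (U : Filter ℕ), b n p = true)
  have hx : Tendsto b U (𝓝 x) := by
    rw [tendsto_pi_nhds]
    intro p
    refine tendsto_nhds_of_eventually_eq ?_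
    by_cases h1 : ∀ᶠ n in (U : Filter ℕ), b n p = true
    · have h2 : x p = true := decide_eq_true h1
      rw [h2]
      exact h1
    · have h2 : x p = false := decide_eq_false h1
      rw [h2]
      have h3 := Ultrafilter.eventually_not.2 h1
      exact h3.mono fun n hn => by simpa using hn
  have hxC : x ∈ {x : Pt L | dec x ∈ 𝒞} := by
    refine hcl.mem_of_tendsto hx (Eventually.of_forall fun n => ?_)
    show dec (enc (A.pull (g n))) ∈ 𝒞
    rw [dec_enc]
    exact hH A hA _ (hg1 n)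
  refine ⟨dec x, hxC, ?_⟩
  funext R v
  have h1 : ∀ᶠ n in (U : Filter ℕ), (b n ⟨R.1, R.2.1, v⟩ = true ↔ N R v) := by
    have h2 : ∀ᶠ n in (U : Filter ℕ), (∑ i, v i) + 1 ≤ n :=
      (Nat.hyperfilter_le_atTop : (U : Filter ℕ) ≤ atTop) (eventually_ge_atTop _)
    refine h2.mono fun n hn => ?_
    have h3 : ∀ i, v i < n := fun i => by
      have := Finset.single_le_sum (f := v) (fun _ _ => Nat.zero_le _) (Finset.mem_univ i)
      omega
    rw [hg2 n R v h3]
    exact decide_eq_true_iff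
  refine propext ?_
  show decide (∀ᶠ n in (U : Filter ℕ), b n ⟨R.1, R.2.1, v⟩ = true) = true ↔ N R v
  rw [decide_eq_true_iff]
  constructor
  · intro h2
    obtain ⟨n, hn1, hn2⟩ := (h1.and h2).exists
    exact hn1.1 hn2
  · intro h2
    exact h1.mono fun n hn => hn.2 h2

/-- the inclusion of languages -/
def inc [L.IsRelational] (s : Finset (Σ n, L.Relations n)) : sub s →ᴸ L where
  onFunction := fun _ f => isEmptyElim f
  onRelation := fun _ R => R.1

theorem EE.red [L.IsRelational] {A B : Str L ℕ} (h : EE A B) (s : Finset (Σ n, L.Relations n)) :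
    EE (red s A) (red s B) := by
  have key : ∀ (A : Str L ℕ) (φ : (sub s).Sentence),
      (@Sentence.Realize L ℕ (toS A) ((inc s).onSentence φ) ↔
        @Sentence.Realize (sub s) ℕ (toS (U.red s A)) φ) := by
    intro A φ
    let _ := toS A
    let _ := toS (U.red s A)
    have h1 : (inc s).IsExpansionOn ℕ := ⟨fun f _ => isEmptyElim f, fun R x => rfl⟩
    exact LHom.realize_onSentence (φ := inc s) ℕ φ
  exact ee_iff.2 fun φ => (key A φ).symm.trans ((ee_iff.1 h _).trans (key B φ))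

/-- If there are countably many elementary equivalence classes in a closed hereditary class, then
all finite reducts of the members are cellular. -/
theorem cellular_red [L.IsRelational] {𝒞 : Set (Str L ℕ)} (hH : Hered 𝒞)
    (hcl : IsClosed {x : Pt L | dec x ∈ 𝒞}) {S : Set (Pt L)}
    (hS : S.Countable) (hS1 : ∀ A ∈ 𝒞, ∃ y ∈ S, EE A (dec y)) {A : Str L ℕ} (hA : A ∈ 𝒞)
    (s : Finset (Σ n, L.Relations n)) : @IsCellular (sub s) ℕ (toS (red s A)) := by
  classical
  by_contra hcon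
  let inst : (sub s).Structure ℕ := toS (red s A)
  have hnc : ¬ CellularAge (sub s) ((sub s).age ℕ) := fun hc =>
    hcon (hc ℕ inferInstance Subset.rfl)
  obtain ⟨F, hF1, hF2⟩ := main_infinite (L := sub s) ℕ hnc
  have h1 : ∀ T : Set ℕ, ∃ B ∈ 𝒞, red s B = @ofS (sub s) ℕ (F T) := by
    intro T
    refine exists_expand hH hcl hA s _ ?_
    exact @finEmb_of_age (sub s) ℕ inst ℕ (F T) _ (hF1 T).subset
  choose B hB hB' using h1
  choose y hy hy' using fun T => hS1 (B T) (hB T)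
  have hinj : Injective y := by
    intro T T' hTT
    by_contra hne
    refine hF2 T T' hne ?_
    have h2 : EE (B T) (B T') := by
      refine (hy' T).trans ?_
      rw [hTT]
      exact (hy' T').symm
    have h3 := h2.red s
    rw [hB', hB'] at h3
    have h4 : @ElementarilyEquivalent (sub s) ℕ ℕ (toS (@ofS (sub s) ℕ (F T)))
      (toS (@ofS (sub s) ℕ (F T'))) := h3
    rw [@toS_ofS (sub s) _ ℕ (F T), @toS_ofS (sub s) _ ℕ (F T')] at h4
    exact h4
  have h5 : (range y).Countable := hS.mono (range_subset_iff.2 hy)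
  have h6 : Countable (Set ℕ) := by
    have : Countable (range y) := h5.to_subtype
    exact Injective.countable (f := rangeFactorization y) fun a b hab =>
      hinj (congrArg Subtype.val hab)
  obtain ⟨u, hu⟩ := exists_injective_nat (Set ℕ)
  exact cantor_injective u hu

/-- **Theorem**, closed case. -/
theorem main_closed [L.IsRelational] [Countable (Σ n, L.Relations n)] {r : ℕ}
    (hr : ∀ R : (Σ n, L.Relations n), R.1 ≤ r) {𝒞 : Set (Str L ℕ)} (hH : Hered 𝒞)
    (hcl : IsClosed {x : Pt L | dec x ∈ 𝒞}) :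
    ((∃ g : ℕ → Str L ℕ, ∀ A ∈ 𝒞, ∃ n, RIso A (g n)) ∧ ∀ A ∈ 𝒞, @IsCellular L ℕ (toS A)) ∨
    ∃ f : (ℕ → Bool) → Pt L, Continuous f ∧ (∀ b, dec (f b) ∈ 𝒞) ∧
      ∀ b b', b ≠ b' → ¬ EE (dec (f b)) (dec (f b')) := by
  have hc : Countable (Σ n, L.Relations n × (Fin n → ℕ)) := countable_idx
  rcases silver_ee 𝒞 hcl.measurableSet with ⟨S, h1, h2, h3⟩ | h
  · have hcell : ∀ A ∈ 𝒞, ∀ s, @IsCellular (sub s) ℕ (toS (red s A)) := fun A hA s =>
      cellular_red hH hcl h1 h3 hA s
    exact Or.inl ⟨countable_of_reducts hr hH hcell h1 h2 h3,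
      fun A hA => cellular_of_reducts hr hH hcell h1 h3 hA⟩
  · exact Or.inr h

/-- **Theorem**, Borel case with cellular reducts. -/
theorem main_borel [L.IsRelational] [Countable (Σ n, L.Relations n)] {r : ℕ}
    (hr : ∀ R : (Σ n, L.Relations n), R.1 ≤ r) {𝒞 : Set (Str L ℕ)} (hH : Hered 𝒞)
    (hB : MeasurableSet {x : Pt L | dec x ∈ 𝒞})
    (hcell : ∀ A ∈ 𝒞, ∀ s, @IsCellular (sub s) ℕ (toS (red s A))) :
    ((∃ g : ℕ → Str L ℕ, ∀ A ∈ 𝒞, ∃ n, RIso A (g n)) ∧ ∀ A ∈ 𝒞, @IsCellular L ℕ (toS A)) ∨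
    ∃ f : (ℕ → Bool) → Pt L, Continuous f ∧ (∀ b, dec (f b) ∈ 𝒞) ∧
      ∀ b b', b ≠ b' → ¬ EE (dec (f b)) (dec (f b')) := by
  rcases silver_ee 𝒞 hB with ⟨S, h1, h2, h3⟩ | h
  · exact Or.inl ⟨countable_of_reducts hr hH hcell h1 h2 h3,
      fun A hA => cellular_of_reducts hr hH hcell h1 h3 hA⟩
  · exact Or.inr h

/-- **Theorem**, reduction to finite languages. -/
theorem main_reduct [L.IsRelational] [Countable (Σ n, L.Relations n)] {r : ℕ}
    (hr : ∀ R : (Σ n, L.Relations n), R.1 ≤ r) {𝒞 : Set (Str L ℕ)} (hH : Hered 𝒞)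
    (hB : MeasurableSet {x : Pt L | dec x ∈ 𝒞}) :
    (∀ A ∈ 𝒞, ∃ s : Finset (Σ n, L.Relations n), ∀ B ∈ 𝒞, EE A B → ∀ e : Equiv.Perm ℕ,
      (∀ R ∈ s, ∀ v : Fin R.1 → ℕ, A R v ↔ B R (e ∘ v)) →
      ∀ (R : Σ n, L.Relations n) (v : Fin R.1 → ℕ), A R v ↔ B R (e ∘ v)) ∨
    ∃ f : (ℕ → Bool) → Pt L, Continuous f ∧ (∀ b, dec (f b) ∈ 𝒞) ∧
      ∀ b b', b ≠ b' → ¬ EE (dec (f b)) (dec (f b')) := by
  rcases silver_ee 𝒞 hB with ⟨S, h1, h2, h3⟩ | h
  · left
    intro A hA
    obtain ⟨s, hs⟩ := exists_sep (finite_tp hH h1 h3 hA r)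
    exact ⟨s, fun B hB hAB e he => iso_of_sep hr
      (tp_subset (hAB.cr r).symm (finite_tp hH h1 h3 hA r)) hs e he⟩
  · exact Or.inr h

end Run7.h46.U
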