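import Pool.Agent.Run7.h46.U.Base
import Pool.Agent.Run7.h46.S.Final

/-! The dichotomy for hereditary classes of structures in languages of bounded arity. -/

namespace Run7.h46.U

open FirstOrder FirstOrder.Language Set Filter Function Run7.h46 Run7.h46.S
open Pool.Agent.Run7.h24.P1 (Data Rep exists_rep rep_iso Idx)

variable {L : FirstOrder.Language.{0, 0}}

/-- closed under pulling back along injections -/
def Hered (𝒞 : Set (Str L ℕ)) : Prop := ∀ A ∈ 𝒞, ∀ f : ℕ → ℕ, Injective f → A.pull f ∈ 𝒞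

/-- the types of `r`-tuples -/
def Tp {M : Type} (A : Str L M) (r : ℕ) : Set (Set (At L r)) :=
  range (fun x : Fin r → M => ty A x)

/-- If there are countably many elementary equivalence classes then every structure has finitely
many types of `r`-tuples. -/
theorem finite_tp [L.IsRelational] {𝒞 : Set (Str L ℕ)} (hH : Hered 𝒞) {S : Set (Pt L)}
    (hS : S.Countable) (hS1 : ∀ A ∈ 𝒞, ∃ y ∈ S, EE A (dec y)) {A : Str L ℕ} (hA : A ∈ 𝒞)
    (r : ℕ) : (Tp A r).Finite := by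
  classical
  by_contra hinf
  have hinf : (Tp A r).Infinite := hinf
  have hne : S.Nonempty := by
    obtain ⟨y, hy, _⟩ := hS1 A hA
    exact ⟨y, hy⟩
  obtain ⟨F, hF⟩ := hS.exists_eq_range hne
  -- infinitely many tuples with different types
  have h0 : ∀ k : ℕ, ∃ x : Fin r → ℕ, ty A x = (Set.Infinite.natEmbedding _ hinf k).1 := fun k =>
    (Set.Infinite.natEmbedding _ hinf k).2
  choose e he using h0
  have hei : Injective fun k => ty A (e k) := by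
    intro a b hab
    have h1 : ty A (e a) = ty A (e b) := hab
    rw [he, he] at h1
    exact (Set.Infinite.natEmbedding _ hinf).injective (Subtype.ext h1)
  let σ : (Fin r → ℕ) → (Fin r → Fin r) → Set (At L r) := fun j p => ty A (fun c => e (j c) (p c))
  have hσ : ∀ X : Set ℕ, X.Infinite → (Tys σ X).Infinite := by
    intro X hX
    refine (hX.image (f := fun k => ty A (e k)) hei.injOn).mono ?_
    rintro _ ⟨k, hk, rfl⟩
    exact ⟨fun _ => k, id, fun _ => hk, rfl⟩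
  obtain ⟨X, hX, hXU⟩ := uncountable_real σ hσ fun n => CR (dec (F n)) r
  -- the substructure
  let M : Set ℕ := {a | ∃ j ∈ X, ∃ c, a = e j c}
  have hM : M.Infinite := by
    intro hfin
    refine hσ X hX (Set.Finite.subset ((Set.Finite.pi' (fun _ : Fin r => hfin)).image
      (fun x : Fin r → ℕ => ty A x)) ?_)
    rintro _ ⟨j, p, hj, rfl⟩
    exact ⟨fun c => e (j c) (p c), fun c => ⟨j c, hj c, p c, rfl⟩, rfl⟩
  have hMi : Infinite M := hM.to_subtype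
  obtain ⟨e0⟩ : Nonempty (ℕ ≃ M) := nonempty_equiv_of_countable
  let f : ℕ → ℕ := fun n => (e0 n).1
  have hf : Injective f := fun a b h => e0.injective (Subtype.ext h)
  obtain ⟨y, hy, hBy⟩ := hS1 _ (hH A hA f hf)
  have h1 : CR (A.pull f) r = Real σ X := by
    ext D
    constructor
    · rintro ⟨x, hx⟩
      rw [ty_pull A hf] at hx
      have h2 : ∀ c, ∃ j ∈ X, ∃ p, f (x c) = e j p := fun c => (e0 (x c)).2
      choose j hj p hp using h2
      refine ⟨j, p, hj, ?_⟩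
      have h3 : f ∘ x = fun c => e (j c) (p c) := funext hp
      rw [h3] at hx
      exact hx
    · rintro ⟨j, p, hj, hD⟩
      refine ⟨fun c => e0.symm ⟨e (j c) (p c), j c, hj c, p c, rfl⟩, ?_⟩
      rw [ty_pull A hf]
      have h3 : (f ∘ fun c => e0.symm ⟨e (j c) (p c), j c, hj c, p c, rfl⟩) =
          fun c => e (j c) (p c) := by
        funext c
        simp [f]
      rw [h3]
      exact hD
  rw [hF] at hy
  obtain ⟨n, rfl⟩ := hy
  exact hXU n (h1.symm.trans (hBy.cr r))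

/-- A type outside of a finite set of types is separated from it. -/
theorem exists_cond {𝔸 : Type} {𝒯 : Set (Set 𝔸)} (h : 𝒯.Finite) {τ : Set 𝔸} (hτ : τ ∉ 𝒯) :
    ∃ D : Cond 𝔸, Holds D τ ∧ ∀ τ' ∈ 𝒯, ¬ Holds D τ' := by
  classical
  have h1 : ∀ τ' : Set 𝔸, ∃ F : Finset 𝔸, τ' ∈ 𝒯 → ∃ a ∈ F, ¬ (a ∈ τ ↔ a ∈ τ') := by
    intro τ'
    by_cases h2 : τ' ∈ 𝒯
    · have h3 : ∃ a, ¬ (a ∈ τ ↔ a ∈ τ') := by
        by_contra hcon
        push Not at hcon
        exact hτ ((Set.ext hcon : τ = τ') ▸ h2)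
      obtain ⟨a, ha⟩ := h3
      exact ⟨{a}, fun _ => ⟨a, Finset.mem_singleton_self a, ha⟩⟩
    · exact ⟨∅, fun h => absurd h h2⟩
  choose F hF using h1
  refine ⟨(h.toFinset.biUnion F).image (fun a => (a, decide (a ∈ τ))), ?_, ?_⟩
  · intro x hx
    obtain ⟨a, _, rfl⟩ := Finset.mem_image.1 hx
    simp
  · intro τ' hτ' hD
    obtain ⟨a, ha, ha'⟩ := hF τ' hτ'
    have := hD (a, decide (a ∈ τ)) (Finset.mem_image_of_mem _
      (Finset.mem_biUnion.2 ⟨τ', h.mem_toFinset.2 hτ', ha⟩))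
    simp only [decide_eq_true_eq] at this
    exact ha' this.symm

theorem tp_subset {A B : Str L ℕ} {r : ℕ} (hAB : CR A r = CR B r) (hB : (Tp B r).Finite) :
    Tp A r ⊆ Tp B r := by
  rintro τ ⟨x, hx⟩
  by_contra hcon
  obtain ⟨D, hD, hD'⟩ := exists_cond hB hcon
  have h1 : D ∈ CR A r := ⟨x, by rw [show ty A x = τ from hx]; exact hD⟩
  rw [hAB] at h1
  obtain ⟨y, hy⟩ := h1
  exact hD' _ ⟨y, rfl⟩ hy

/-- the finite set `s` of relation symbols separates the types in `𝒯` -/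
def Sep {r : ℕ} (𝒯 : Set (Set (At L r))) (s : Finset (Σ n, L.Relations n)) : Prop :=
  ∀ τ ∈ 𝒯, ∀ τ' ∈ 𝒯, (∀ p, (Sum.inl p : At L r) ∈ τ ↔ (Sum.inl p : At L r) ∈ τ') →
    (∀ q : (Σ R : (Σ n, L.Relations n), (Fin R.1 → Fin r)), q.1 ∈ s →
      ((Sum.inr q : At L r) ∈ τ ↔ (Sum.inr q : At L r) ∈ τ')) → τ = τ'

theorem exists_sep {r : ℕ} {𝒯 : Set (Set (At L r))} (h : 𝒯.Finite) :
    ∃ s : Finset (Σ n, L.Relations n), Sep 𝒯 s := by
  classical
  have h1 : ∀ τ τ' : Set (At L r), ∃ F : Finset (Σ n, L.Relations n),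
      (∃ q : (Σ R : (Σ n, L.Relations n), (Fin R.1 → Fin r)),
        ¬ ((Sum.inr q : At L r) ∈ τ ↔ (Sum.inr q : At L r) ∈ τ')) →
      ∃ q : (Σ R : (Σ n, L.Relations n), (Fin R.1 → Fin r)), q.1 ∈ F ∧
        ¬ ((Sum.inr q : At L r) ∈ τ ↔ (Sum.inr q : At L r) ∈ τ') := by
    intro τ τ'
    by_cases h2 : ∃ q : (Σ R : (Σ n, L.Relations n), (Fin R.1 → Fin r)),
        ¬ ((Sum.inr q : At L r) ∈ τ ↔ (Sum.inr q : At L r) ∈ τ')
    · obtain ⟨q, hq⟩ := h2
      exact ⟨{q.1}, fun _ => ⟨q, Finset.mem_singleton_self _, hq⟩⟩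
    · exact ⟨∅, fun h => absurd h h2⟩
  choose F hF using h1
  refine ⟨h.toFinset.biUnion fun τ => h.toFinset.biUnion fun τ' => F τ τ', ?_⟩
  intro τ hτ τ' hτ' h2 h3
  ext (p | q)
  · exact h2 p
  · by_contra hcon
    obtain ⟨q', hq', hq''⟩ := hF τ τ' ⟨q, hcon⟩
    exact hq'' (h3 q' (Finset.mem_biUnion.2 ⟨τ, h.mem_toFinset.2 hτ, Finset.mem_biUnion.2
      ⟨τ', h.mem_toFinset.2 hτ', hq'⟩⟩))

/-- A bijection which preserves the separating relations is an isomorphism. -/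
theorem iso_of_sep {r : ℕ} (hr : ∀ R : (Σ n, L.Relations n), R.1 ≤ r) {A B : Str L ℕ}
    (hAB : Tp B r ⊆ Tp A r) {s : Finset (Σ n, L.Relations n)} (hs : Sep (Tp A r) s)
    (e : Equiv.Perm ℕ)
    (he : ∀ R ∈ s, ∀ v : Fin R.1 → ℕ, A R v ↔ B R (e ∘ v)) (R : Σ n, L.Relations n)
    (v : Fin R.1 → ℕ) : A R v ↔ B R (e ∘ v) := by
  let x : Fin r → ℕ := fun c => if h : (c : ℕ) < R.1 then v ⟨c, h⟩ else 0
  let i : Fin R.1 → Fin r := Fin.castLE (hr R)
  have hv : x ∘ i = v := by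
    funext c
    simp [x, i]
  have h1 : ty A x = ty B (e ∘ x) := by
    refine hs _ ⟨x, rfl⟩ _ (hAB ⟨e ∘ x, rfl⟩) ?_ ?_
    · intro p
      rw [mem_ty_inl, mem_ty_inl]
      exact (e.injective.eq_iff).symm
    · intro q hq
      rw [mem_ty_inr, mem_ty_inr]
      exact he q.1 hq _
  have h2 : (Sum.inr ⟨R, i⟩ : At L r) ∈ ty A x ↔ (Sum.inr ⟨R, i⟩ : At L r) ∈ ty B (e ∘ x) := by
    rw [h1]
  rw [mem_ty_inr, mem_ty_inr] at h2
  rw [← hv]
  exact h2

theorem countable_data (L : FirstOrder.Language.{0, 0}) [Finite (Σ n, L.Relations n)] (r : ℕ) :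
    Countable (Data L r) := by
  have h1 : ∀ (n : ℕ) (k : Fin n → ℕ) (m : ℕ), Countable (Str L (Idx (Fin r) n k m)) := by
    intro n k m
    have : Finite (Str L (Idx (Fin r) n k m)) := by
      unfold Str
      infer_instance
    infer_instance
  infer_instance

section cell

variable [L.IsRelational] {𝒞 : Set (Str L ℕ)} {S : Set (Pt L)} {r : ℕ}

/-- If the reducts are cellular, then the structures are cellular. -/
theorem cellular_of_reducts (hr : ∀ R : (Σ n, L.Relations n), R.1 ≤ r) (hH : Hered 𝒞)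
    (hcell : ∀ A ∈ 𝒞, ∀ s, @IsCellular (sub s) ℕ (toS (red s A))) (hS : S.Countable)
    (hS1 : ∀ A ∈ 𝒞, ∃ y ∈ S, EE A (dec y)) {A : Str L ℕ} (hA : A ∈ 𝒞) :
    @IsCellular L ℕ (toS A) := by
  obtain ⟨s, hs⟩ := exists_sep (finite_tp hH hS hS1 hA r)
  obtain ⟨n, k, K, c, h1, h2, h3, h4, h5⟩ := hcell A hA s
  refine ⟨n, k, K, c, h1, h2, h3, h4, fun i σ => ?_⟩
  obtain ⟨g, hg1, hg2⟩ := h5 i σ
  let g0 : Equiv.Perm ℕ := @FirstOrder.Language.Equiv.toEquiv (sub s) ℕ ℕ (toS (red s A))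
    (toS (red s A)) g
  have h6 : ∀ R ∈ s, ∀ v : Fin R.1 → ℕ, A R v ↔ A R (g0 ∘ v) := by
    rintro ⟨m, R⟩ hR v
    have := @FirstOrder.Language.Equiv.map_rel' (sub s) ℕ ℕ (toS (red s A))
      (toS (red s A)) g m (⟨R, hR⟩ : (sub s).Relations m) v
    exact this.symm
  have h7 := iso_of_sep hr (Subset.refl (Tp A r)) hs g0 h6
  refine ⟨@FirstOrder.Language.Equiv.mk L ℕ ℕ (toS A) (toS A) g0
    (fun f _ => isEmptyElim f) (fun {n} R v => (h7 ⟨n, R⟩ v).symm), fun j l => hg1 j l,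
    fun x hx => hg2 x hx⟩

/-- If the reducts are cellular, then there are countably many isomorphism types. -/
theorem countable_of_reducts [Countable (Σ n, L.Relations n)]
    (hr : ∀ R : (Σ n, L.Relations n), R.1 ≤ r) (hH : Hered 𝒞)
    (hcell : ∀ A ∈ 𝒞, ∀ s, @IsCellular (sub s) ℕ (toS (red s A))) (hS : S.Countable)
    (hS0 : ∀ x ∈ S, dec x ∈ 𝒞) (hS1 : ∀ A ∈ 𝒞, ∃ y ∈ S, EE A (dec y)) :
    ∃ g : ℕ → Str L ℕ, ∀ A ∈ 𝒞, ∃ n, RIso A (g n) := by
  classical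
  rcases S.eq_empty_or_nonempty with rfl | hne
  · refine ⟨fun _ => dec fun _ => true, fun A hA => ?_⟩
    obtain ⟨y, hy, _⟩ := hS1 A hA
    exact absurd hy (notMem_empty y)
  choose s hs using fun y : S => exists_sep (finite_tp hH hS hS1 (hS0 y.1 y.2) r)
  let ι : Type := Σ y : S, Data (sub (s y)) r
  let P : ι → Str L ℕ → Prop := fun i A => A ∈ 𝒞 ∧ EE A (dec i.1.1) ∧
    @Pool.Agent.Run7.h24.P1.Rep (sub (s i.1)) r i.2 ℕ (toS (red (s i.1) A))
  let G : ι → Str L ℕ := fun i => if h : ∃ A, P i A then h.choose else dec i.1.1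
  have hSc : Countable S := hS.to_subtype
  have hcd : ∀ y : S, Countable (Data (sub (s y)) r) := fun y => countable_data _ r
  have hιc : Countable ι := inferInstance
  have key : ∀ A ∈ 𝒞, ∃ i : ι, RIso A (G i) := by
    intro A hA
    obtain ⟨y, hy, hAy⟩ := hS1 A hA
    obtain ⟨d, hd⟩ := @Pool.Agent.Run7.h24.P1.exists_rep (sub (s ⟨y, hy⟩)) r ℕ (toS (red (s ⟨y, hy⟩) A))
      (hcell A hA (s ⟨y, hy⟩))
    let i : ι := ⟨⟨y, hy⟩, d⟩
    have hex : ∃ A, P i A := ⟨A, hA, hAy, hd⟩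
    have hGi : G i = hex.choose := dif_pos hex
    obtain ⟨hB, hBy, hBd⟩ := hex.choose_spec
    rw [← hGi] at hB hBy hBd
    refine ⟨i, ?_⟩
    have hr' : ∀ R : (Σ n, (sub (s ⟨y, hy⟩)).Relations n), R.1 ≤ r := fun R =>
      hr ⟨R.1, R.2.1⟩
    obtain ⟨g⟩ := @Pool.Agent.Run7.h24.P1.rep_iso (sub (s ⟨y, hy⟩)) _ r hr' d ℕ ℕ
      (toS (red (s ⟨y, hy⟩) A)) (toS (red (s ⟨y, hy⟩) (G i))) hd hBd
    let g0 : Equiv.Perm ℕ := @FirstOrder.Language.Equiv.toEquiv (sub (s ⟨y, hy⟩)) ℕ ℕ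
      (toS (red (s ⟨y, hy⟩) A)) (toS (red (s ⟨y, hy⟩) (G i))) g
    have h6 : ∀ R ∈ s ⟨y, hy⟩, ∀ v : Fin R.1 → ℕ, A R v ↔ G i R (g0 ∘ v) := by
      rintro ⟨m, R⟩ hR v
      have := @FirstOrder.Language.Equiv.map_rel' (sub (s ⟨y, hy⟩)) ℕ ℕ
        (toS (red (s ⟨y, hy⟩) A)) (toS (red (s ⟨y, hy⟩) (G i))) g m
        (⟨R, hR⟩ : (sub (s ⟨y, hy⟩)).Relations m) v
      exact this.symm
    have hfy := finite_tp hH hS hS1 (hS0 y hy) r
    have hfA := finite_tp hH hS hS1 hA r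
    have hAy' : CR A r = CR (dec y) r := hAy.cr r
    have hBy' : CR (G i) r = CR (dec y) r := hBy.cr r
    have h7 : Tp A r = Tp (dec y) r := Subset.antisymm (tp_subset hAy' hfy)
      (tp_subset hAy'.symm hfA)
    have h8 : Tp (G i) r ⊆ Tp A r := by
      rw [h7]
      exact tp_subset hBy' hfy
    have h9 : Sep (Tp A r) (s ⟨y, hy⟩) := by
      rw [h7]
      exact hs ⟨y, hy⟩
    exact ⟨g0, iso_of_sep hr h8 h9 g0 h6⟩
  have hιn : Nonempty ι := by
    obtain ⟨y, hy⟩ := hne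
    obtain ⟨i, _⟩ := key (dec y) (hS0 y hy)
    exact ⟨i⟩
  obtain ⟨F, hF⟩ := exists_surjective_nat ι
  refine ⟨fun n => G (F n), fun A hA => ?_⟩
  obtain ⟨i, hi⟩ := key A hA
  obtain ⟨n, rfl⟩ := hF i
  exact ⟨n, hi⟩

end cell

end Run7.h46.U
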