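import Pool.Agent.Run7.h46.U.Exp

/-! The class of models of a universal theory is closed and hereditary. -/

namespace Run7.h46.U

open FirstOrder FirstOrder.Language Set Filter Function Run7.h46 Run7.h46.S Topology

variable {L : FirstOrder.Language.{0, 0}}

theorem term_const [L.IsRelational] {β : Type} {n : ℕ} (c : β → ℕ) (d : Fin n → ℕ)
    (t : L.Term (β ⊕ Fin n)) : ∃ a : ℕ, ∀ y : Pt L,
      @Term.realize L ℕ (toS (dec y)) _ (Sum.elim c d) t = a := by
  cases t with
  | var i => exact ⟨Sum.elim c d i, fun y => rfl⟩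
  | func g _ => exact isEmptyElim g

theorem isClopen_qf [L.IsRelational] {β : Type} {n : ℕ} {φ : L.BoundedFormula β n}
    (h : φ.IsQF) (c : β → ℕ) (d : Fin n → ℕ) :
    IsClopen {x : Pt L | @BoundedFormula.Realize L ℕ (toS (dec x)) _ _ φ c d} := by
  induction h with
  | falsum =>
    have : {x : Pt L | @BoundedFormula.Realize L ℕ (toS (dec x)) _ _
        (BoundedFormula.falsum : L.BoundedFormula β n) c d} = ∅ := by
      ext x
      exact Iff.rfl
    rw [this]
    exact isClopen_empty
  | of_isAtomic h =>
    cases h with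
    | equal t1 t2 =>
      obtain ⟨a, ha⟩ := term_const c d t1
      obtain ⟨b, hb⟩ := term_const c d t2
      have : {x : Pt L | @BoundedFormula.Realize L ℕ (toS (dec x)) _ _ (t1.bdEqual t2) c d} =
          {_x | a = b} := by
        ext x
        show @Term.realize L ℕ (toS (dec x)) _ (Sum.elim c d) t1 =
          @Term.realize L ℕ (toS (dec x)) _ (Sum.elim c d) t2 ↔ _
        rw [ha, hb]
        exact Iff.rfl
      rw [this]
      by_cases hab : a = b
      · simp [hab, isClopen_univ]
      · simp [hab, isClopen_empty]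
    | @rel l R ts =>
      choose a ha using fun i => term_const c d (ts i)
      have : {x : Pt L | @BoundedFormula.Realize L ℕ (toS (dec x)) _ _
          (R.boundedFormula ts) c d} = (fun x : Pt L => x ⟨l, R, a⟩) ⁻¹' {true} := by
        ext x
        show @Structure.RelMap L ℕ (toS (dec x)) l R
          (fun i => @Term.realize L ℕ (toS (dec x)) _ (Sum.elim c d) (ts i)) ↔ _
        have e : (fun i => @Term.realize L ℕ (toS (dec x)) _ (Sum.elim c d) (ts i)) = a :=
          funext fun i => ha i x
        rw [e]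
        exact Iff.rfl
      rw [this]
      exact (isClopen_discrete ({true} : Set Bool)).preimage
        (continuous_apply (⟨l, R, a⟩ : Σ n, L.Relations n × (Fin n → ℕ)))
  | @imp f1 f2 _ _ h1 h2 =>
    have : {x : Pt L | @BoundedFormula.Realize L ℕ (toS (dec x)) _ _ (f1.imp f2) c d} =
        {x : Pt L | @BoundedFormula.Realize L ℕ (toS (dec x)) _ _ f1 c d}ᶜ ∪
          {x : Pt L | @BoundedFormula.Realize L ℕ (toS (dec x)) _ _ f2 c d} := by
      ext y
      show (@BoundedFormula.Realize L ℕ (toS (dec y)) _ _ f1 c d →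
        @BoundedFormula.Realize L ℕ (toS (dec y)) _ _ f2 c d) ↔ _
      rw [imp_iff_not_or]
      exact Iff.rfl
    rw [this]
    exact h1.compl.union h2

theorem isClosed_univ [L.IsRelational] {β : Type} {n : ℕ} {φ : L.BoundedFormula β n}
    (h : φ.IsUniversal) (c : β → ℕ) (d : Fin n → ℕ) :
    IsClosed {x : Pt L | @BoundedFormula.Realize L ℕ (toS (dec x)) _ _ φ c d} := by
  induction h with
  | of_isQF h => exact (isClopen_qf h c d).isClosed
  | @all n g _ ih =>
    have : {x : Pt L | @BoundedFormula.Realize L ℕ (toS (dec x)) _ _ g.all c d} =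
        ⋂ a : ℕ, {x : Pt L | @BoundedFormula.Realize L ℕ (toS (dec x)) _ _ g c
          (Fin.snoc d a)} := by
      ext y
      rw [mem_iInter]
      exact Iff.rfl
    rw [this]
    exact isClosed_iInter fun a => ih (Fin.snoc d a)

/-- the models of a universal theory form a closed class -/
theorem closed_models [L.IsRelational] (T : L.Theory) (hT : T.IsUniversal) :
    IsClosed {x : Pt L | dec x ∈ {A : Str L ℕ | @Theory.Model L ℕ (toS A) T}} := by
  have : {x : Pt L | dec x ∈ {A : Str L ℕ | @Theory.Model L ℕ (toS A) T}} =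
      ⋂ φ ∈ T, {x : Pt L | @Sentence.Realize L ℕ (toS (dec x)) φ} := by
    ext x
    rw [mem_iInter₂]
    constructor
    · intro h φ hφ
      exact (@Theory.model_iff L ℕ (toS (dec x)) T).1 h φ hφ
    · intro h
      exact (@Theory.model_iff L ℕ (toS (dec x)) T).2 fun φ hφ => h φ hφ
  rw [this]
  refine isClosed_biInter fun φ hφ => ?_
  unfold Sentence.Realize Formula.Realize
  exact isClosed_univ (hT.isUniversal_of_mem hφ) _ _

theorem hered_models [L.IsRelational] (T : L.Theory) (hT : T.IsUniversal) :
    Hered {A : Str L ℕ | @Theory.Model L ℕ (toS A) T} := by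
  intro A hA f hf
  let e : @FirstOrder.Language.Embedding L ℕ ℕ (toS (A.pull f)) (toS A) :=
    @FirstOrder.Language.Embedding.mk L ℕ ℕ (toS (A.pull f)) (toS A) ⟨f, hf⟩
      (fun g _ => isEmptyElim g) (fun R v => Iff.rfl)
  exact @Theory.IsUniversal.models_of_embedding L ℕ (toS (A.pull f)) T hT ℕ (toS A) hA e

end Run7.h46.U
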